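import Pool.Agent.SSF.Geo.Smooth

/-!
# SSF, geometry: closed immersion of `Proj A` in a projective space
-/

namespace Pool.Agent.SSF.Geo

open CategoryTheory AlgebraicGeometry MonoidalCategory CartesianMonoidalCategory Limits
open TensorProduct HomogeneousLocalization HomogeneousIdeal Graded
open Pool.Agent.SSF.Br

section General

variable {A B σ τ : Type} [CommRing A] [SetLike σ A] [AddSubgroupClass σ A] [CommRing B]
  [SetLike τ B] [AddSubgroupClass τ B] {𝒜 : ℕ → σ} {ℬ : ℕ → τ} [GradedRing 𝒜] [GradedRing ℬ]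

/-- A surjective graded homomorphism is surjective in every degree. -/
lemma surj_deg (f : 𝒜 →+*ᵍ ℬ) (hs : Function.Surjective f) (n : ℕ) (y : B) (hy : y ∈ ℬ n) :
    ∃ x ∈ 𝒜 n, f x = y := by
  classical
  obtain ⟨a, rfl⟩ := hs y
  refine ⟨(DirectSum.decompose 𝒜 a n : A), SetLike.coe_mem _, ?_⟩
  have h1 : a = ∑ i ∈ (DirectSum.decompose 𝒜 a).support, (DirectSum.decompose 𝒜 a i : A) :=
    (DirectSum.sum_support_decompose 𝒜 a).symm
  have h2 : f a = ∑ i ∈ (DirectSum.decompose 𝒜 a).support, f (DirectSum.decompose 𝒜 a i : A) := by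
    conv_lhs => rw [h1]
    rw [map_sum]
  have h3 : (DirectSum.decompose ℬ (f a) n : B) = f (DirectSum.decompose 𝒜 a n : A) := by
    rw [h2, DirectSum.decompose_sum, DFinsupp.finsetSum_apply, AddSubmonoidClass.coe_finsetSum]
    rw [Finset.sum_eq_single n]
    · exact DirectSum.decompose_of_mem_same ℬ (f.2 (SetLike.coe_mem _))
    · intro i _ hi
      exact DirectSum.decompose_of_mem_ne ℬ (f.2 (SetLike.coe_mem _)) hi
    · intro hn
      rw [DFinsupp.notMem_support_iff.1 hn]
      simp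
  rw [← h3]
  exact DirectSum.decompose_of_mem_same ℬ hy

lemma irr_of_surj (f : 𝒜 →+*ᵍ ℬ) (hs : Function.Surjective f) :
    HomogeneousIdeal.irrelevant ℬ ≤ (HomogeneousIdeal.irrelevant 𝒜).map f := by
  rw [HomogeneousIdeal.irrelevant_le]
  intro i hi y hy
  obtain ⟨x, hx, rfl⟩ := surj_deg f hs i y hy
  refine Ideal.mem_map_of_mem _ ?_
  exact HomogeneousIdeal.mem_irrelevant_of_mem 𝒜 hi hx

lemma away_surj (f : 𝒜 →+*ᵍ ℬ) (hs : Function.Surjective f) (s : A) {m : ℕ} (hm : s ∈ 𝒜 m) :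
    Function.Surjective (Away.map f s) := by
  intro y
  obtain ⟨n, b, hb, rfl⟩ := Away.mk_surjective ℬ (f.2 hm) y
  obtain ⟨a, ha, rfl⟩ := surj_deg f hs _ b hb
  exact ⟨Away.mk 𝒜 hm n a ha, Away.map_mk f s hm n a ha⟩

lemma isPullback_away (f : 𝒜 →+*ᵍ ℬ)
    (hf : HomogeneousIdeal.irrelevant ℬ ≤ (HomogeneousIdeal.irrelevant 𝒜).map f)
    (s : A) {m : ℕ} (hm : 0 < m) (hs : s ∈ 𝒜 m) :
    IsPullback (Spec.map (CommRingCat.ofHom (Away.map f s))) (Proj.awayι ℬ (f s) (f.2 hs) hm)
      (Proj.awayι 𝒜 s hs hm) (Proj.map f hf) := by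
  refine IsOpenImmersion.isPullback _ _ _ _ (Proj.awayι_comp_map f hf hm s hs) ?_
  rw [Proj.opensRange_awayι, Proj.opensRange_awayι]
  rfl

lemma closed_of_pb {U V X Y : Scheme.{0}} {g : U ⟶ V} {iU : U ⟶ X} {iV : V ⟶ Y} {f : X ⟶ Y}
    (h : IsPullback g iU iV f) (hg : IsClosedImmersion g) :
    IsClosedImmersion (pullback.snd f iV) := by
  have h3 : pullback.snd f iV = h.flip.isoPullback.inv ≫ g := h.flip.isoPullback_inv_snd.symm
  rw [h3]
  infer_instance

/-- `Proj` of a surjection of graded rings is a closed immersion. -/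
theorem closed_of_surj (f : 𝒜 →+*ᵍ ℬ) (hs : Function.Surjective f)
    (hf : HomogeneousIdeal.irrelevant ℬ ≤ (HomogeneousIdeal.irrelevant 𝒜).map f) :
    IsClosedImmersion (Proj.map f hf) := by
  refine IsZariskiLocalAtTarget.of_openCover (P := @IsClosedImmersion)
    (Proj.affineOpenCover 𝒜).openCover fun i => ?_
  have h1 := isPullback_away f hf (i.2 : A) i.1.2 i.2.2
  have h2 : IsClosedImmersion (Spec.map (CommRingCat.ofHom (Away.map f (i.2 : A)))) :=
    IsClosedImmersion.spec_of_surjective _ (away_surj f hs _ i.2.2)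
  exact closed_of_pb h1 h2

end General

section Field

variable {k A : Type} [Field k] [CommRing A] [Algebra k A] (𝒜 : ℕ → Submodule k A)
  [GradedAlgebra 𝒜]

/-- A standard graded algebra is a graded quotient of a polynomial ring. -/
theorem exists_poly (hfin : Module.Finite k (𝒜 1))
    (hgen : Algebra.adjoin k ((𝒜 1 : Submodule k A) : Set A) = ⊤) :
    ∃ (n : ℕ) (φ : MvPolynomial (Fin (n + 1)) k →ₐ[k] A), Function.Surjective φ ∧
      ∀ i, ∀ p ∈ homPoly k n i, φ p ∈ 𝒜 i := by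
  obtain ⟨n, x, hx⟩ := Module.Finite.exists_fin (R := k) (M := 𝒜 1)
  let y : Fin (n + 1) → 𝒜 1 := Fin.cons 0 x
  let φ : MvPolynomial (Fin (n + 1)) k →ₐ[k] A := MvPolynomial.aeval fun i => (y i : A)
  refine ⟨n, φ, ?_, ?_⟩
  · rw [← AlgHom.range_eq_top]
    refine top_le_iff.1 (hgen.symm.le.trans ?_)
    refine Algebra.adjoin_le ?_
    intro a ha
    have h1 : (⟨a, ha⟩ : 𝒜 1) ∈ Submodule.span k (Set.range x) := by rw [hx]; trivial
    have h2 : ∀ z : 𝒜 1, z ∈ Submodule.span k (Set.range x) → (z : A) ∈ φ.range := by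
      intro z hz
      induction hz using Submodule.span_induction with
      | mem z hz =>
        obtain ⟨i, rfl⟩ := hz
        refine ⟨MvPolynomial.X i.succ, ?_⟩
        show φ (MvPolynomial.X i.succ) = _
        simp [φ, y]
      | zero => exact φ.range.zero_mem
      | add z w _ _ hz hw => exact φ.range.add_mem hz hw
      | smul c z _ hz => exact φ.range.smul_mem hz c
    exact h2 _ h1
  · intro i p hp
    have hp' : p.IsHomogeneous i := hp
    rw [p.as_sum, map_sum]
    refine Submodule.sum_mem _ fun d hd => ?_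
    have hd' : ∑ j ∈ d.support, d j • 1 = i := by
      have := hp' (MvPolynomial.mem_support_iff.1 hd)
      rwa [Finsupp.weight_apply] at this
    rw [MvPolynomial.aeval_monomial, ← Algebra.smul_def, ← hd']
    refine Submodule.smul_mem _ _ ?_
    exact SetLike.prod_pow_mem_graded 𝒜 _ _ _ fun j _ => (y j).2

/-- The graded surjection. -/
noncomputable def polyHom {n : ℕ} (φ : MvPolynomial (Fin (n + 1)) k →ₐ[k] A)
    (h : ∀ i, ∀ p ∈ homPoly k n i, φ p ∈ 𝒜 i) : (homPoly k n) →+*ᵍ 𝒜 where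
  __ := φ.toRingHom
  map_mem := fun hx => h _ _ hx

/-- `Proj A` is closed in a projective space. -/
theorem exists_closed (hfin : Module.Finite k (𝒜 1))
    (hgen : Algebra.adjoin k ((𝒜 1 : Submodule k A) : Set A) = ⊤) :
    ∃ (n : ℕ) (i : projOver 𝒜 ⟶ projSpace k n), IsClosedImmersion i.left := by
  obtain ⟨n, φ, hφ, hd⟩ := exists_poly 𝒜 hfin hgen
  let f := polyHom 𝒜 φ hd
  have hs : Function.Surjective f := hφ
  have hf := irr_of_surj f hs
  refine ⟨n, Over.homMk (Proj.map f hf) ?_, closed_of_surj f hs hf⟩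
  show Proj.map f hf ≫ (projOver (homPoly k n)).hom = (projOver 𝒜).hom
  have main : ∀ (m : ℕ) (hm : 0 < m) (a : MvPolynomial (Fin (n + 1)) k)
      (ha : a ∈ homPoly k n m),
      Proj.awayι 𝒜 (f a) (f.2 ha) hm ≫ Proj.map f hf ≫ (projOver (homPoly k n)).hom =
        Proj.awayι 𝒜 (f a) (f.2 ha) hm ≫ (projOver 𝒜).hom := by
    intro m hm a ha
    have h1 : Proj.awayι 𝒜 (f a) (f.2 ha) hm ≫ Proj.map f hf ≫ (projOver (homPoly k n)).hom =
        Spec.map (CommRingCat.ofHom (Away.map f a)) ≫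
          Spec.map (CommRingCat.ofHom (awayStr (homPoly k n) a)) := by
      rw [← awayι_projOver (homPoly k n) ha hm]
      exact Proj.awayι_comp_map_assoc f hf hm a ha _
    rw [h1, awayι_projOver, ← Spec.map_comp, ← CommRingCat.ofHom_comp]
    congr 2
    ext c
    have h3 : f (algebraMap k _ c) = algebraMap k A c := φ.commutes c
    have h4 : f 1 = 1 := map_one f
    show (Localization.mk (f (algebraMap k _ c)) (⟨f 1, ⟨0, by simp⟩⟩ :
      Submonoid.powers (f a)) : Localization (Submonoid.powers (f a))) =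
      Localization.mk (algebraMap k A c) (⟨1, ⟨0, by simp⟩⟩ : Submonoid.powers (f a))
    rw [h3]
    congr 1
    exact Subtype.ext h4
  exact (Proj.mapAffineOpenCover f hf).openCover.hom_ext _ _ fun s => main _ s.1.2 _ s.2.2

end Field

end Pool.Agent.SSF.Geo
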