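import Pool.Agent.SSF.Br.PI

/-!
# SSF, geometry: geometric connectedness of `Proj A`
-/

namespace Pool.Agent.SSF.Geo

open CategoryTheory AlgebraicGeometry MonoidalCategory CartesianMonoidalCategory Limits
open TensorProduct HomogeneousLocalization HomogeneousIdeal Graded
open Pool.Agent.SSF.Br

section Irr

variable {S R : Type} [CommRing S] [CommRing R] [Algebra S R] (ℛ : ℕ → Submodule S R)
  [GradedAlgebra ℛ]

/-- The generic point of `Proj` of a domain. -/
noncomputable def genPt [IsDomain R] (h : ∃ n, 0 < n ∧ ∃ x ∈ ℛ n, x ≠ 0) :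
    ProjectiveSpectrum ℛ where
  asHomogeneousIdeal := ⊥
  isPrime := by
    show (HomogeneousIdeal.toIdeal ⊥ : Ideal R).IsPrime
    rw [HomogeneousIdeal.toIdeal_bot]
    exact Ideal.isPrime_bot
  not_irrelevant_le := by
    obtain ⟨n, hn, x, hx, h0⟩ := h
    intro hle
    refine h0 ?_
    have h1 : x ∈ HomogeneousIdeal.irrelevant ℛ := by
      rw [HomogeneousIdeal.mem_irrelevant_iff]
      rw [GradedRing.proj_apply, DirectSum.decompose_of_mem_ne ℛ hx hn.ne']
    have h2 : x ∈ (⊥ : HomogeneousIdeal ℛ).toIdeal := hle h1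
    rw [HomogeneousIdeal.toIdeal_bot] at h2
    exact h2

theorem irreducible_proj [IsDomain R] (h : ∃ n, 0 < n ∧ ∃ x ∈ ℛ n, x ≠ 0) :
    IrreducibleSpace (ProjectiveSpectrum ℛ) := by
  have h1 : closure {genPt ℛ h} = (Set.univ : Set (ProjectiveSpectrum ℛ)) := by
    ext P
    simp only [Set.mem_univ, iff_true]
    exact (ProjectiveSpectrum.le_iff_mem_closure _ _ _).1 (by
      show (⊥ : HomogeneousIdeal ℛ) ≤ P.asHomogeneousIdeal
      exact bot_le)
  have h2 : IsIrreducible (Set.univ : Set (ProjectiveSpectrum ℛ)) := by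
    rw [← h1]
    exact isIrreducible_singleton.closure
  exact (irreducibleSpace_def _).2 h2

end Irr

variable {k A : Type} [Field k] [CommRing A] [Algebra k A] (𝒜 : ℕ → Submodule k A)
  [GradedAlgebra 𝒜]

/-- `Proj A` is geometrically connected if `K ⊗ A` is a domain for all `K`. -/
theorem geomConnected (hd : ∀ (K : Type) [Field K] [Algebra k K], IsDomain (K ⊗[k] A))
    (h : ∃ n, 0 < n ∧ ∃ x ∈ 𝒜 n, x ≠ 0) : GeometricallyConnected (projOver 𝒜).hom := by
  refine ⟨geometrically_iff_of_commRing_of_isClosedUnderIsomorphisms.2 fun K _ _ => ?_⟩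
  obtain ⟨e, he1, he2, he3⟩ := exists_projIso 𝒜
  have hdK := hd K
  have h2 : ∃ n, 0 < n ∧ ∃ x ∈ bc 𝒜 K n, x ≠ 0 := by
    obtain ⟨n, hn, x, hx, h0⟩ := h
    refine ⟨n, hn, 1 ⊗ₜ x, Submodule.tmul_mem_baseChange_of_mem _ hx, ?_⟩
    intro h3
    refine h0 ?_
    have hinj : Function.Injective (Algebra.TensorProduct.includeRight : A →ₐ[k] K ⊗[k] A) :=
      Algebra.TensorProduct.includeRight_injective (algebraMap k K).injective
    exact hinj (by rw [map_zero]; exact h3)
  have h3 : IrreducibleSpace (ProjectiveSpectrum (bc 𝒜 K)) := irreducible_proj _ h2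
  have h4 : ConnectedSpace (Proj (bc 𝒜 K)) :=
    inferInstanceAs (ConnectedSpace (ProjectiveSpectrum (bc 𝒜 K)))
  have h5 : (Proj (bc 𝒜 K)) ≅ pullback (projOver 𝒜).hom
      (Spec.map <| CommRingCat.ofHom <| algebraMap k K) := e K
  exact (Scheme.homeoOfIso h5).surjective.connectedSpace (Scheme.homeoOfIso h5).continuous

end Pool.Agent.SSF.Geo
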