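import Pool.Agent.SSF.Geo.Smooth

/-!
# SSF, geometry: isomorphisms of graded algebras and smoothness of `Proj`
-/

set_option autoImplicit false

namespace Pool.Agent.SSF.Geo

open CategoryTheory AlgebraicGeometry MonoidalCategory CartesianMonoidalCategory Limits
open TensorProduct HomogeneousLocalization HomogeneousIdeal Graded
open Pool.Agent.SSF.Br

section General

variable {A B σ τ : Type} [CommRing A] [SetLike σ A] [AddSubgroupClass σ A] [CommRing B]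
  [SetLike τ B] [AddSubgroupClass τ B] {𝒜 : ℕ → σ} {ℬ : ℕ → τ} [GradedRing 𝒜] [GradedRing ℬ]

lemma map_eq_one (f : 𝒜 →+*ᵍ 𝒜) (h : f = .id 𝒜)
    (hf : HomogeneousIdeal.irrelevant 𝒜 ≤ (HomogeneousIdeal.irrelevant 𝒜).map f) :
    Proj.map f hf = 𝟙 (Proj 𝒜) := by
  subst h
  exact Proj.map_id

lemma irr_of_inv (f : 𝒜 →+*ᵍ ℬ) (g : ℬ →+*ᵍ 𝒜) (hfg : g.comp f = .id 𝒜) :
    HomogeneousIdeal.irrelevant 𝒜 ≤ (HomogeneousIdeal.irrelevant ℬ).map g := by
  refine (toIdeal_irrelevant_le _).mpr fun i hi x hx => ?_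
  have h1 : g (f x) = x := DFunLike.congr_fun hfg x
  rw [← h1]
  exact Ideal.mem_map_of_mem _ (HomogeneousIdeal.mem_irrelevant_of_mem ℬ hi (f.2 hx))

/-- `Proj` of a graded isomorphism is an isomorphism. -/
lemma isIso_map_of_inv (f : 𝒜 →+*ᵍ ℬ) (g : ℬ →+*ᵍ 𝒜) (hfg : g.comp f = .id 𝒜)
    (hgf : f.comp g = .id ℬ) (hf : HomogeneousIdeal.irrelevant ℬ ≤
      (HomogeneousIdeal.irrelevant 𝒜).map f) : IsIso (Proj.map f hf) := by
  refine ⟨Proj.map g (irr_of_inv f g hfg), ?_, ?_⟩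
  · rw [← Proj.map_comp]
    exact map_eq_one _ hgf _
  · rw [← Proj.map_comp]
    exact map_eq_one _ hfg _

end General

section Field

variable {k A B : Type} [Field k] [CommRing A] [Algebra k A] [CommRing B] [Algebra k B]
  (𝒜 : ℕ → Submodule k A) [GradedAlgebra 𝒜] (ℬ : ℕ → Submodule k B) [GradedAlgebra ℬ]

/-- The map of `Proj` is a map over `k`. -/
theorem map_projOver (f : 𝒜 →+*ᵍ ℬ) (hk : ∀ c : k, f (algebraMap k A c) = algebraMap k B c)
    (hf : HomogeneousIdeal.irrelevant ℬ ≤ (HomogeneousIdeal.irrelevant 𝒜).map f) :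
    Proj.map f hf ≫ (projOver 𝒜).hom = (projOver ℬ).hom := by
  have main : ∀ (m : ℕ) (hm : 0 < m) (a : A) (ha : a ∈ 𝒜 m),
      Proj.awayι ℬ (f a) (f.2 ha) hm ≫ Proj.map f hf ≫ (projOver 𝒜).hom =
        Proj.awayι ℬ (f a) (f.2 ha) hm ≫ (projOver ℬ).hom := by
    intro m hm a ha
    have h1 : Proj.awayι ℬ (f a) (f.2 ha) hm ≫ Proj.map f hf ≫ (projOver 𝒜).hom =
        Spec.map (CommRingCat.ofHom (Away.map f a)) ≫
          Spec.map (CommRingCat.ofHom (awayStr 𝒜 a)) := by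
      rw [← awayι_projOver 𝒜 ha hm]
      exact Proj.awayι_comp_map_assoc f hf hm a ha _
    rw [h1, awayι_projOver, ← Spec.map_comp, ← CommRingCat.ofHom_comp]
    congr 2
    ext c
    have h3 : f (algebraMap k A c) = algebraMap k B c := hk c
    have h4 : f 1 = 1 := map_one f
    show (Localization.mk (f (algebraMap k A c)) (⟨f 1, ⟨0, by simp⟩⟩ :
      Submonoid.powers (f a)) : Localization (Submonoid.powers (f a))) =
      Localization.mk (algebraMap k B c) (⟨1, ⟨0, by simp⟩⟩ : Submonoid.powers (f a))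
    rw [h3]
    congr 1
    exact Subtype.ext h4
  exact (Proj.mapAffineOpenCover f hf).openCover.hom_ext _ _ fun s => main _ s.1.2 _ s.2.2

variable {𝒜 ℬ}

set_option linter.unusedSectionVars false

/-- A degree preserving isomorphism of graded algebras as a graded homomorphism. -/
noncomputable def eqHom (α : A ≃ₐ[k] B) (h : ∀ n a, a ∈ 𝒜 n ↔ α a ∈ ℬ n) : 𝒜 →+*ᵍ ℬ where
  __ := (α : A →ₐ[k] B).toRingHom
  map_mem := fun {n a} ha => (h n a).1 ha

/-- The inverse. -/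
noncomputable def eqInv (α : A ≃ₐ[k] B) (h : ∀ n a, a ∈ 𝒜 n ↔ α a ∈ ℬ n) : ℬ →+*ᵍ 𝒜 where
  __ := (α.symm : B →ₐ[k] A).toRingHom
  map_mem := fun {n b} hb => (h n _).2 (by
    change α (α.symm b) ∈ ℬ n
    rw [α.apply_symm_apply]
    exact hb)

lemma eqInv_comp (α : A ≃ₐ[k] B) (h : ∀ n a, a ∈ 𝒜 n ↔ α a ∈ ℬ n) :
    (eqInv α h).comp (eqHom α h) = .id 𝒜 :=
  DFunLike.ext _ _ fun x => α.symm_apply_apply x

lemma eqHom_comp (α : A ≃ₐ[k] B) (h : ∀ n a, a ∈ 𝒜 n ↔ α a ∈ ℬ n) :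
    (eqHom α h).comp (eqInv α h) = .id ℬ :=
  DFunLike.ext _ _ fun x => α.apply_symm_apply x

/-- Smoothness of `Proj` is invariant under isomorphisms of graded algebras. -/
theorem smooth_of_equiv (α : A ≃ₐ[k] B) (h : ∀ n a, a ∈ 𝒜 n ↔ α a ∈ ℬ n)
    (hs : Smooth (projOver ℬ).hom) : Smooth (projOver 𝒜).hom := by
  have hf := irr_of_inv (eqInv α h) (eqHom α h) (eqHom_comp α h)
  have hi : IsIso (Proj.map (eqHom α h) hf) :=
    isIso_map_of_inv _ _ (eqInv_comp α h) (eqHom_comp α h) hf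
  have h1 := map_projOver 𝒜 ℬ (eqHom α h) (fun c => α.commutes c) hf
  exact (MorphismProperty.cancel_left_of_respectsIso @Smooth.{0}
    (Proj.map (eqHom α h) hf) (projOver 𝒜).hom).1 (h1.symm ▸ hs)

end Field

end Pool.Agent.SSF.Geo
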