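import Pool.Agent.SSF.G1

/-!
# SSF, geometry: the ring `Away` as a subring of the localized Cox ring
-/

set_option autoImplicit false

namespace Pool.Agent.SSF.Geo

open HomogeneousLocalization

theorem away_sub' {k : Type} [Field k] (D : Cox k) {n : ℕ} {u : D.A}
    (hu : u ∈ D.gA n) :
    ∃ ι : Away D.gA u →+* Localization.Away (D.φ u),
      Function.Injective ι ∧
      (∀ c : k, ι ((fromZeroRingHom D.gA (Submonoid.powers u)) (algebraMap k (D.gA 0) c)) =
        algebraMap k _ c) ∧
      ∀ c, c ∈ Set.range ι ↔ ∃ m : ℕ, ∃ a ∈ D.gR ((m * n) • D.h),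
        c * algebraMap D.R (Localization.Away (D.φ u)) (D.φ u) ^ m = algebraMap D.R _ a := by
  let L := Localization.Away (D.φ u)
  have hinst : IsLocalization.Away ((D.φ : D.A →+* D.R) u) L :=
    inferInstanceAs (IsLocalization.Away (D.φ u) (Localization.Away (D.φ u)))
  let M : Localization.Away u →+* L :=
    IsLocalization.Away.map (Localization.Away u) L (D.φ : D.A →+* D.R) u
  have hM : ∀ a : D.A, M (algebraMap D.A (Localization.Away u) a) =
      algebraMap D.R L (D.φ a) := fun a =>
    IsLocalization.map_eq (M := Submonoid.powers u)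
      (T := Submonoid.powers ((D.φ : D.A →+* D.R) u)) _ a
  let ι : Away D.gA u →+* L := M.comp (algebraMap (Away D.gA u) (Localization.Away u))
  have hι : ∀ (m : ℕ) (a : D.A) (ha : a ∈ D.gA (m • n)),
      ι (Away.mk D.gA hu m a ha) * algebraMap D.R L (D.φ u) ^ m = algebraMap D.R L (D.φ a) := by
    intro m a ha
    have h1 : algebraMap (Away D.gA u) (Localization.Away u) (Away.mk D.gA hu m a ha) =
        Localization.mk a ⟨u ^ m, by use m⟩ := Away.val_mk D.gA m hu a ha
    change M _ * _ = _
    rw [h1, ← hM, ← hM, ← map_pow, ← map_mul, ← map_pow]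
    congr 1
    rw [Localization.mk_eq_mk', mul_comm]
    exact IsLocalization.mk'_spec' (Localization.Away u) a ⟨u ^ m, by use m⟩
  have hunit : IsUnit (algebraMap D.R L (D.φ u)) := IsLocalization.Away.algebraMap_isUnit _
  refine ⟨ι, ?_, ?_, ?_⟩
  · rw [injective_iff_map_eq_zero]
    intro z hz
    obtain ⟨m, a, ha, rfl⟩ := Away.mk_surjective D.gA hu z
    have h1 := hι m a ha
    rw [hz, zero_mul] at h1
    obtain ⟨⟨_, N, rfl⟩, hN⟩ := (IsLocalization.map_eq_zero_iff
      (Submonoid.powers (D.φ u)) L (D.φ a)).1 h1.symm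
    have h2 : u ^ N * a = 0 := by
      apply D.φ_inj
      rw [map_mul, map_pow, map_zero]
      exact hN
    apply HomogeneousLocalization.val_injective
    rw [Away.val_mk, HomogeneousLocalization.val_zero, Localization.mk_eq_mk',
      IsLocalization.mk'_eq_zero_iff]
    exact ⟨⟨u ^ N, by use N⟩, h2⟩
  · intro c
    have h1 : algebraMap (Away D.gA u) (Localization.Away u)
        ((fromZeroRingHom D.gA (Submonoid.powers u)) (algebraMap k (D.gA 0) c)) =
        algebraMap D.A (Localization.Away u) (algebraMap k D.A c) := by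
      change Localization.mk _ _ = _
      rw [← Localization.mk_one_eq_algebraMap]
      rfl
    change M _ = _
    rw [h1, hM, AlgHom.commutes, ← IsScalarTower.algebraMap_apply]
  · intro c
    constructor
    · rintro ⟨z, rfl⟩
      obtain ⟨m, a, ha, rfl⟩ := Away.mk_surjective D.gA hu z
      exact ⟨m, D.φ a, D.φ_mem _ _ ha, hι m a ha⟩
    · rintro ⟨m, a', ha', e⟩
      obtain ⟨a, ha, rfl⟩ := D.φ_surj _ a' ha'
      exact ⟨Away.mk D.gA hu m a ha, (hunit.pow m).mul_right_cancel ((hι m a ha).trans e.symm)⟩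

end Pool.Agent.SSF.Geo
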