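import Pool.Agent.SSF.Geo.Base
import Pool.Agent.SSF.Geo.Away
import Pool.Agent.SSF.GeoChart
import Pool.Agent.SSF.GeoLoc
import Pool.Agent.SSF.XChart

/-!
# SSF, geometry: the localized multigraded ring of a chart

`Co k s o` is graded by `Lam`, has a unit in every degree, is formally smooth over `k`, and the
coordinate ring of the chart of `Proj` is its degree zero part.
-/

set_option autoImplicit false

namespace Pool.Agent.SSF.Geo

open Pool.Agent.SSF Pool.Agent.SSF.GeoLoc Pool.Agent.SSF.GeoChart HomogeneousLocalization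

section inv

variable {k C Γ : Type*} [CommRing k] [CommRing C] [Algebra k C] [AddCommGroup Γ] [DecidableEq Γ]
  (𝒞 : Γ → Submodule k C) [GradedAlgebra 𝒞]

/-- The inverse of a homogeneous unit is homogeneous. -/
theorem inv_mem {γ : Γ} {x y : C} (hx : x ∈ 𝒞 γ) (h : x * y = 1) : y ∈ 𝒞 (-γ) := by
  have h1 := DirectSum.coe_decompose_mul_add_of_left_mem 𝒞 (j := -γ) (b := y) hx
  rw [h, add_neg_cancel, DirectSum.decompose_of_mem_same 𝒞 SetLike.GradedOne.one_mem] at h1
  have h2 : y = (DirectSum.decompose 𝒞 y (-γ) : C) := by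
    calc y = y * (x * (DirectSum.decompose 𝒞 y (-γ) : C)) := by rw [← h1, mul_one]
      _ = (x * y) * (DirectSum.decompose 𝒞 y (-γ) : C) := by ring
      _ = _ := by rw [h, one_mul]
  rw [h2]
  exact (DirectSum.decompose 𝒞 y (-γ)).2

/-- The degrees of the homogeneous units. -/
def unitDeg : AddSubgroup Γ where
  carrier := {γ | ∃ w ∈ 𝒞 γ, ∃ w' ∈ 𝒞 (-γ), w * w' = 1}
  zero_mem' := ⟨1, SetLike.one_mem_graded 𝒞, 1, by
    rw [neg_zero]; exact SetLike.one_mem_graded 𝒞, one_mul 1⟩
  add_mem' := by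
    rintro γ δ ⟨w, hw, w', hw', h⟩ ⟨v, hv, v', hv', h'⟩
    refine ⟨w * v, SetLike.mul_mem_graded hw hv, w' * v', ?_, ?_⟩
    · rw [neg_add]
      exact SetLike.mul_mem_graded hw' hv'
    · calc w * v * (w' * v') = (w * w') * (v * v') := by ring
        _ = 1 := by rw [h, h', one_mul]
  neg_mem' := by
    rintro γ ⟨w, hw, w', hw', h⟩
    exact ⟨w', hw', w, by rwa [neg_neg], by rw [mul_comm]; exact h⟩

end inv

variable (k : Type) [CommRing k] (s : k) (o : Fin 4 → Fin 4)

theorem Fo_eq : Fo k s o = fch k s o ^ 4 := by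
  have h1 : fch k s o = ∏ i, ∏ j ∈ Finset.univ.erase (o i), xi k s (i, j) := by
    rw [fch]
    exact Finset.prod_finset_product _ _ (fun i => Finset.univ.erase (o i)) (by
      rintro ⟨i, j⟩
      simp)
  rw [Fo, h1, ← Finset.prod_pow]
  refine Finset.prod_congr rfl fun i _ => ?_
  rw [← Finset.prod_pow]

instance isLocalization_fch : IsLocalization.Away (fch k s o) (Co k s o) := by
  refine IsLocalization.of_le_of_exists_dvd (Submonoid.powers (Fo k s o)) _ ?_ ?_
  · rw [Submonoid.powers_le, Fo_eq]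
    exact Submonoid.pow_mem _ (Submonoid.mem_powers _) 4
  · rintro _ ⟨n, rfl⟩
    refine ⟨Fo k s o ^ n, ⟨n, rfl⟩, ?_⟩
    change fch k s o ^ n ∣ Fo k s o ^ n
    rw [Fo_eq]
    exact pow_dvd_pow_of_dvd (Dvd.intro_left (fch k s o ^ 3) (by ring)) n

/-- The localized ring is formally smooth. -/
theorem Co_formallySmooth (h : Hyp k s) : Algebra.FormallySmooth k (Co k s o) :=
  formallySmooth h o (Co k s o)

/-- The grading of the localized ring. -/
noncomputable def CC : Lam → Submodule k (Co k s o) :=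
  locGr (gr k s) (Fo k s o) (3 • hh) (Co k s o) (Fo_mem k s o)

noncomputable instance CC_graded : GradedAlgebra (CC k s o) :=
  gradedAlgebra (Fo_mem k s o) (Co k s o)

theorem xo_mem (v : V) : xo k s o v ∈ CC k s o (e v) :=
  algebraMap_mem (Fo_mem k s o) (Co k s o) (xi_mem k s v)

theorem xo_isUnit (v : V) (hv : v.2 ≠ o v.1) : IsUnit (xo k s o v) := by
  refine isUnit_of_dvd_unit (map_dvd (algebraMap (R k s) (Co k s o)) ?_)
    (IsLocalization.Away.algebraMap_isUnit (S := Co k s o) (fch k s o))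
  exact Finset.dvd_prod_of_mem _ (by simpa using hv)

/-- There is a unit in every degree. -/
theorem exists_unit_deg (γ : Lam) :
    ∃ w ∈ CC k s o γ, ∃ w' ∈ CC k s o (-γ), w * w' = 1 := by
  have hgen : ∀ v : V, v.2 ≠ o v.1 → e v ∈ unitDeg (CC k s o) := by
    intro v hv
    obtain ⟨y, hy⟩ := (xo_isUnit k s o v hv).exists_right_inv
    exact ⟨_, xo_mem k s o v, y, inv_mem (CC k s o) (xo_mem k s o v) hy, hy⟩
  obtain ⟨c, hc, hγ⟩ := XChart.exists_exp o γ
  have hmem : γ ∈ unitDeg (CC k s o) := by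
    rw [← hγ]
    refine AddSubgroup.sum_mem _ fun v _ => ?_
    by_cases hv : v.2 = o v.1
    · have : c v = 0 := by
        have := hc v.1
        rwa [← hv] at this
      rw [this, zero_smul]
      exact AddSubgroup.zero_mem _
    · exact AddSubgroup.zsmul_mem _ (hgen v hv) _
  exact hmem

end Pool.Agent.SSF.Geo

namespace Pool.Agent.SSF.Geo

open HomogeneousLocalization

variable (k : Type) [Field k] (s : k) (o : Fin 4 → Fin 4)

/-- The coordinate ring of the chart is the degree zero part of the localized ring. -/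
theorem away_zero :
    ∃ ι : Away (DS k s).gA (fo k s o) →+* Co k s o, Function.Injective ι ∧
      (∀ c : k, ι ((fromZeroRingHom (DS k s).gA (Submonoid.powers (fo k s o)))
        (algebraMap k ((DS k s).gA 0) c)) = algebraMap k _ c) ∧
      ∀ c, c ∈ Set.range ι ↔ c ∈ CC k s o 0 := by
  obtain ⟨ι, h1, h2, h3⟩ := away_sub' (DS k s) (fo_mem k s o)
  refine ⟨ι, h1, h2, fun c => (h3 c).trans ?_⟩
  constructor
  · rintro ⟨m, a, ha, e⟩
    refine ⟨m, a, ?_, e⟩
    have : (0 : Lam) + m • (3 • hh) = (m * 3) • hh := by rw [zero_add, mul_smul]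
    rw [this]
    exact ha
  · rintro ⟨m, a, ha, e⟩
    refine ⟨m, a, ?_, e⟩
    have : (0 : Lam) + m • (3 • hh) = (m * 3) • hh := by rw [zero_add, mul_smul]
    rw [this] at ha
    exact ha

end Pool.Agent.SSF.Geo
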