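import Pool.Agent.SSF.Geo.Base
import Pool.Agent.SSF.XGood
import Pool.Agent.SSF.XChart
import Pool.Agent.SSF.G3

/-!
# SSF, geometry: the charts of the split form cover `Proj`
-/

set_option autoImplicit false

namespace Pool.Agent.SSF.Geo

open Pool.Agent.SSF Pool.Agent.SSF.XChart

/-- The charts `fo` cover `Proj`. -/
theorem cover (k : Type) [Field k] (s : k) (h : Hyp k s) (P : ProjectiveSpectrum (DS k s).gA) :
    ∃ o : Fin 4 → Fin 4, fo k s o ∉ P.asHomogeneousIdeal := by
  by_contra hc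
  push Not at hc
  have hD := DS_good k s h
  set I0 : Ideal (DS k s).A := P.asHomogeneousIdeal.toIdeal with hI0
  have hI0h : I0.IsHomogeneous (DS k s).gA := P.asHomogeneousIdeal.isHomogeneous
  have hprime : I0.IsPrime := P.isPrime
  obtain ⟨N, hN⟩ := exists_pow_mem k s h 4
  have hle : ∏ i, rowI k s 4 i ≤ (I0.map (DS k s).φ : Ideal (R k s)) := by
    refine prod_rowI_le k s fun J => ?_
    exact Ideal.mem_map_of_mem (DS k s).φ (hc J)
  have hmem : ∀ n : ℕ, N ≤ n → ∀ a ∈ (DS k s).gA n, a ∈ I0 := by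
    intro n hn a ha
    rw [← (DS k s).comap_map hD hI0h, Ideal.mem_comap]
    have h1 : (DS k s).φ a ∈ gr k s (n • hh) := (DS k s).φ_mem n a ha
    rw [gr_eq_span] at h1
    have h3 : Submodule.span k {x | ∃ m : V →₀ ℕ, Finsupp.weight e m = n • hh ∧
        x = mon k s m} ≤ (I0.map (DS k s).φ : Ideal (R k s)).restrictScalars k := by
      rw [Submodule.span_le]
      rintro _ ⟨m, hm, rfl⟩
      exact hle (mon_mem_of_high k s hN hn hm)
    exact h3 h1
  apply P.not_irrelevant_le
  rw [HomogeneousIdeal.irrelevant_le]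
  intro i hi a ha
  have h1 : a ^ (N + 1) ∈ I0 := by
    refine hmem ((N + 1) * i) ?_ _ ?_
    · exact le_trans (Nat.le_succ N) (Nat.le_mul_of_pos_right _ hi)
    · have ha' : a ∈ (DS k s).gA i := ha
      exact SetLike.pow_mem_graded (N + 1) ha'
  exact hprime.mem_of_pow_mem _ h1

end Pool.Agent.SSF.Geo
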