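import Pool.Agent.SSF.Geo.Smooth
import Pool.Agent.SSF.Defs

/-!
# SSF, geometry: the charts of `Proj A` are of finite type (presentation) over the base field
-/

set_option autoImplicit false

namespace Pool.Agent.SSF.Geo

open HomogeneousLocalization

/-- The structure map of a chart is of finite type. -/
theorem fromZero_comp_finiteType {k A : Type} [Field k] [CommRing A] [Algebra k A]
    (𝒜 : ℕ → Submodule k A) [GradedAlgebra 𝒜] (hft : Algebra.FiniteType k A)
    (h0 : Module.Finite k (𝒜 0)) {n : ℕ} {u : A} (hu : u ∈ 𝒜 n) :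
    RingHom.FiniteType ((fromZeroRingHom 𝒜 (Submonoid.powers u)).comp (algebraMap k (𝒜 0))) := by
  have hst := IsScalarTower.of_algebraMap_eq (R := k) (S := 𝒜 0) (A := A) fun _ => rfl
  have hft0 : Algebra.FiniteType (𝒜 0) A := Algebra.FiniteType.of_restrictScalars_finiteType k _ _
  have h1 : (algebraMap (𝒜 0) (Away 𝒜 u)).FiniteType := by
    have := Away.finiteType (𝒜 := 𝒜) u n hu
    exact RingHom.finiteType_algebraMap.2 this
  have h2 : (algebraMap k (𝒜 0)).FiniteType := by
    rw [RingHom.finiteType_algebraMap]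
    infer_instance
  exact RingHom.FiniteType.comp h1 h2

theorem away_finiteType {k : Type} [Field k] (D : Cox k) (hft : Algebra.FiniteType k D.A)
    (h0 : Module.Finite k (D.gA 0)) {n : ℕ} (_hn : 0 < n) {u : D.A} (hu : u ∈ D.gA n) :
    (awayStr D.gA u).FiniteType :=
  fromZero_comp_finiteType D.gA hft h0 hu

theorem away_finitePresentation {k : Type} [Field k] (D : Cox k)
    (hft : Algebra.FiniteType k D.A) (h0 : Module.Finite k (D.gA 0)) {n : ℕ} (hn : 0 < n)
    {u : D.A} (hu : u ∈ D.gA n) : (awayStr D.gA u).FinitePresentation :=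
  RingHom.FinitePresentation.of_finiteType.1 (away_finiteType D hft h0 hn hu)

end Pool.Agent.SSF.Geo
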