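import Pool.Agent.SSF.Geo.GrDesc
import Pool.Agent.SSF.Geo.Cone
import Pool.Agent.SSF.Geo.FT
import Pool.Agent.SSF.Geo.Cover

/-!
# SSF, geometry: the split form is smooth
-/

set_option autoImplicit false

namespace Pool.Agent.SSF.Geo

open Pool.Agent.SSF Pool.Agent.SSF.Br AlgebraicGeometry HomogeneousLocalization

theorem gA_zero_finite (k : Type) [Field k] (s : k) : Module.Finite k ((DS k s).gA 0) := by
  have h1 : Module.Finite k (gr k s (0 • hh)) := gr_finite k s _
  let f : (DS k s).gA 0 →ₗ[k] gr k s (0 • hh) :=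
    { toFun := fun x => ⟨(DS k s).φ x, x.2⟩
      map_add' := fun _ _ => rfl
      map_smul' := fun _ _ => rfl }
  refine Module.Finite.of_injective f fun x y hxy => ?_
  have h2 : (DS k s).φ x = (DS k s).φ y :=
    congrArg (fun z : gr k s (0 • hh) => (z : R k s)) hxy
  exact Subtype.ext (Subtype.ext h2)

theorem smooth_chart (k : Type) [Field k] (s : k) (h : Hyp k s) (o : Fin 4 → Fin 4) :
    (awayStr (DS k s).gA (fo k s o)).Smooth := by
  have hfp := away_finitePresentation (DS k s) (DS_good k s h).ftA
    (gA_zero_finite k s) (by norm_num) (fo_mem k s o)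
  obtain ⟨ι, hι, hc, hr⟩ := away_zero k s o
  let _ := (awayStr (DS k s).gA (fo k s o)).toAlgebra
  let i : Away (DS k s).gA (fo k s o) →ₐ[k] Co k s o := { ι with commutes' := hc }
  have h1 : Algebra.FormallySmooth k (Co k s o) := Co_formallySmooth k s o h
  have h2 : Algebra.FormallySmooth k (Away (DS k s).gA (fo k s o)) :=
    formallySmooth_zero (CC k s o) (exists_unit_deg k s o) i hι fun c => (hr c).symm
  exact ⟨h2, hfp⟩

/-- The split form is smooth. -/
theorem smooth_split (k : Type) [Field k] (s : k) (h : Hyp k s) :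
    Smooth (projOver (DS k s).gA).hom :=
  smooth_of_charts _ (fo k s) (fo_mem k s) (fun _ => by norm_num) (cover k s h)
    (smooth_chart k s h)

end Pool.Agent.SSF.Geo
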