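import Pool.Agent.SSF.XHyp

/-!
# SSF, geometry: the charts of the split form (definitions)

`o : Fin 4 → Fin 4` selects in every row the coordinate which is allowed to vanish; `Fo k s o` is the
product of the fourth powers of all other coordinates, of degree `3 • hh`.
-/

set_option autoImplicit false

namespace Pool.Agent.SSF.Geo

open Pool.Agent.SSF

section base

variable (k : Type) [CommRing k] (s : k) (o : Fin 4 → Fin 4)

/-- The product of the fourth powers of the coordinates which are invertible on the chart `o`. -/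
noncomputable def Fo : R k s := ∏ i, ∏ j ∈ Finset.univ.erase (o i), xi k s (i, j) ^ 4

/-- The localised ring. -/
abbrev Co : Type := Localization.Away (Fo k s o)

/-- The coordinates in the localised ring. -/
noncomputable def xo (v : V) : Co k s o := algebraMap (R k s) (Co k s o) (xi k s v)

theorem four_e (v : V) : 4 • e v = (Pi.single v.1 4, 0) := by revert v; decide

theorem prod_mem_gr {ι : Type} (t : Finset ι) (x : ι → R k s) (γ : ι → Lam)
    (h : ∀ i ∈ t, x i ∈ gr k s (γ i)) : ∏ i ∈ t, x i ∈ gr k s (∑ i ∈ t, γ i) :=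
  SetLike.prod_mem_graded (gr k s) γ x h

theorem Fo_mem : Fo k s o ∈ gr k s (3 • hh) := by
  have h1 : ∀ i, ∏ j ∈ Finset.univ.erase (o i), xi k s (i, j) ^ 4 ∈
      gr k s (∑ j ∈ Finset.univ.erase (o i), 4 • e (i, j)) := fun i =>
    prod_mem_gr k s _ _ _ fun j _ => SetLike.pow_mem_graded 4 (xi_mem k s (i, j))
  have h2 := prod_mem_gr k s Finset.univ _ _ fun i _ => h1 i
  have h3 : ∑ i : Fin 4, ∑ j ∈ Finset.univ.erase (o i), 4 • e (i, j) = 3 • hh := by
    have h4 : ∀ i : Fin 4, ∑ j ∈ Finset.univ.erase (o i), 4 • e (i, j) =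
        3 • ((Pi.single i 4, 0) : Lam) := by
      intro i
      have h5 : ∑ j ∈ Finset.univ.erase (o i), 4 • e (i, j) =
          ∑ _j ∈ Finset.univ.erase (o i), ((Pi.single i 4, 0) : Lam) :=
        Finset.sum_congr rfl fun j _ => four_e (i, j)
      rw [h5, Finset.sum_const, Finset.card_erase_of_mem (Finset.mem_univ _), Finset.card_univ]
      rfl
    rw [Finset.sum_congr rfl fun i _ => h4 i]
    decide
  rw [h3] at h2
  exact h2

theorem Fo_mem_ver : Fo k s o ∈ ver (gr k s) hh := mem_ver_of_mem (gr k s) hh (Fo_mem k s o)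

/-- The element of the Veronese ring. -/
noncomputable def fo : (DS k s).A := (⟨Fo k s o, Fo_mem_ver k s o⟩ : ver (gr k s) hh)

theorem fo_mem : fo k s o ∈ (DS k s).gA 3 := Fo_mem k s o

theorem φ_fo : (DS k s).φ (fo k s o) = Fo k s o := rfl

end base

end Pool.Agent.SSF.Geo
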