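import Mathlib

/-!
# SSF, geometry: descent of formal smoothness along quadratic extensions and retractions
-/

set_option autoImplicit false

namespace Pool.Agent.SSF.Geo

open Algebra

section retract

variable {k B C : Type} [CommRing k] [CommRing B] [CommRing C] [Algebra k B] [Algebra k C]

/-- A retract of a formally smooth algebra is formally smooth. -/
theorem formallySmooth_of_retract (i : B →ₐ[k] C) (r : C →ₐ[k] B) (h : ∀ x, r (i x) = x)
    [FormallySmooth k C] : FormallySmooth k B := by
  refine FormallySmooth.of_comp_surjective fun T _ _ I hI g => ?_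
  obtain ⟨f, hf⟩ := FormallySmooth.comp_surjective k C I hI (g.comp r)
  refine ⟨f.comp i, AlgHom.ext fun x => ?_⟩
  have h1 := AlgHom.congr_fun hf (i x)
  change Ideal.Quotient.mkₐ k I (f (i x)) = g x
  change Ideal.Quotient.mkₐ k I (f (i x)) = g (r (i x)) at h1
  rw [h1, h]

end retract

section quad

variable {k T : Type} [CommRing k] [CommRing T] [Algebra k T] (I : Ideal T) (b : T)

/-- Reduction of a quadratic algebra. -/
def mapQ : QuadraticAlgebra T b 0 →ₐ[k] QuadraticAlgebra (T ⧸ I) (Ideal.Quotient.mk I b) 0 where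
  toFun x := ⟨Ideal.Quotient.mk I x.re, Ideal.Quotient.mk I x.im⟩
  map_one' := by
    refine QuadraticAlgebra.ext ?_ ?_ <;> simp [QuadraticAlgebra.re_one, QuadraticAlgebra.im_one]
  map_mul' x y := by
    refine QuadraticAlgebra.ext ?_ ?_ <;> simp [QuadraticAlgebra.re_mul, QuadraticAlgebra.im_mul]
  map_zero' := by
    refine QuadraticAlgebra.ext ?_ ?_ <;> simp
  map_add' x y := by
    refine QuadraticAlgebra.ext ?_ ?_ <;> simp
  commutes' c := by
    refine QuadraticAlgebra.ext ?_ ?_
    · rfl
    · exact map_zero (Ideal.Quotient.mk I)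

theorem mapQ_surj : Function.Surjective (mapQ (k := k) I b) := by
  rintro ⟨x, y⟩
  obtain ⟨x, rfl⟩ := Ideal.Quotient.mk_surjective x
  obtain ⟨y, rfl⟩ := Ideal.Quotient.mk_surjective y
  exact ⟨⟨x, y⟩, rfl⟩

theorem mul_zero_of_mem {I : Ideal T} (hI : I ^ 2 = ⊥) {x y : T} (hx : x ∈ I) (hy : y ∈ I) :
    x * y = 0 := by
  have h1 : x * y ∈ I ^ 2 := by
    rw [pow_two]
    exact Ideal.mul_mem_mul hx hy
  rwa [hI, Ideal.mem_bot] at h1

theorem mapQ_nil (hI : I ^ 2 = ⊥) :
    IsNilpotent (RingHom.ker (mapQ (k := k) I b : QuadraticAlgebra T b 0 →+*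
      QuadraticAlgebra (T ⧸ I) (Ideal.Quotient.mk I b) 0)) := by
  refine ⟨2, ?_⟩
  rw [pow_two, Ideal.zero_eq_bot, eq_bot_iff, Ideal.mul_le]
  intro x hx y hy
  have hx' : mapQ (k := k) I b x = 0 := hx
  have hy' : mapQ (k := k) I b y = 0 := hy
  have hx1 : x.re ∈ I := Ideal.Quotient.eq_zero_iff_mem.1 (congrArg QuadraticAlgebra.re hx')
  have hx2 : x.im ∈ I := Ideal.Quotient.eq_zero_iff_mem.1 (congrArg QuadraticAlgebra.im hx')
  have hy1 : y.re ∈ I := Ideal.Quotient.eq_zero_iff_mem.1 (congrArg QuadraticAlgebra.re hy')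
  have hy2 : y.im ∈ I := Ideal.Quotient.eq_zero_iff_mem.1 (congrArg QuadraticAlgebra.im hy')
  rw [Ideal.mem_bot]
  refine QuadraticAlgebra.ext ?_ ?_
  · rw [QuadraticAlgebra.re_mul, mul_zero_of_mem hI hx1 hy1, mul_assoc,
      mul_zero_of_mem hI hx2 hy2]
    simp
  · rw [QuadraticAlgebra.im_mul, mul_zero_of_mem hI hx1 hy2, mul_zero_of_mem hI hx2 hy1,
      mul_assoc, mul_zero_of_mem hI hx2 hy2]
    simp

end quad

section step

variable {k B C : Type} [CommRing k] [CommRing B] [CommRing C] [Algebra k B] [Algebra k C]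

/-- The quadratic step: `C = B ⊕ B w`, `w² = b ∈ B`; if `C` is formally smooth, so is `B`. -/
theorem formallySmooth_of_quad (i : B →ₐ[k] C) (w : C) (b : B) (hw : w * w = i b) (p q : C → B)
    (hpq : ∀ c, c = i (p c) + i (q c) * w)
    (huniq : ∀ x y x' y', i x + i y * w = i x' + i y' * w → x = x' ∧ y = y')
    [FormallySmooth k C] : FormallySmooth k B := by
  have key : ∀ c x y, c = i x + i y * w → p c = x ∧ q c = y := fun c x y h =>
    huniq _ _ _ _ ((hpq c).symm.trans h)
  refine FormallySmooth.of_comp_surjective fun T _ _ I hI g => ?_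
  obtain ⟨b', hb'⟩ := Ideal.Quotient.mk_surjective (g b)
  let f : C →ₐ[k] QuadraticAlgebra (T ⧸ I) (Ideal.Quotient.mk I b') 0 :=
    { toFun := fun c => ⟨g (p c), g (q c)⟩
      map_one' := by
        obtain ⟨h1, h2⟩ := key 1 1 0 (by simp)
        rw [h1, h2, map_one, map_zero]
        rfl
      map_mul' := by
        intro c d
        obtain ⟨h1, h2⟩ := key (c * d) (p c * p d + b * q c * q d) (p c * q d + q c * p d) (by
          conv_lhs => rw [hpq c, hpq d]
          simp only [map_add, map_mul]
          rw [← hw]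
          ring)
        rw [h1, h2]
        refine QuadraticAlgebra.ext ?_ ?_
        · simp [hb']
        · simp
      map_zero' := by
        obtain ⟨h1, h2⟩ := key 0 0 0 (by simp)
        rw [h1, h2, map_zero]
        rfl
      map_add' := by
        intro c d
        obtain ⟨h1, h2⟩ := key (c + d) (p c + p d) (q c + q d) (by
          conv_lhs => rw [hpq c, hpq d]
          simp only [map_add]
          ring)
        rw [h1, h2, map_add, map_add]
        rfl
      commutes' := by
        intro c
        obtain ⟨h1, h2⟩ := key (algebraMap k C c) (algebraMap k B c) 0 (by simp)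
        rw [h1, h2, map_zero, AlgHom.commutes]
        rfl }
  let F := FormallySmooth.liftOfSurjective f (mapQ (k := k) I b') (mapQ_surj I b')
    (mapQ_nil I b' hI)
  have hF : ∀ c, mapQ (k := k) I b' (F c) = f c := fun c =>
    FormallySmooth.liftOfSurjective_apply f _ _ _ c
  have hi : ∀ x, p (i x) = x ∧ q (i x) = 0 := fun x => key _ _ _ (by simp)
  have hre : ∀ x, Ideal.Quotient.mk I (F (i x)).re = g x := by
    intro x
    have h1 := congrArg QuadraticAlgebra.re (hF (i x))
    change Ideal.Quotient.mk I (F (i x)).re = g (p (i x)) at h1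
    rw [h1, (hi x).1]
  have him : ∀ x, (F (i x)).im ∈ I := by
    intro x
    have h1 := congrArg QuadraticAlgebra.im (hF (i x))
    change Ideal.Quotient.mk I (F (i x)).im = g (q (i x)) at h1
    rw [(hi x).2, map_zero] at h1
    exact Ideal.Quotient.eq_zero_iff_mem.1 h1
  refine ⟨{ toFun := fun x => (F (i x)).re
            map_one' := by rw [map_one, map_one]; rfl
            map_mul' := by
              intro x y
              rw [map_mul, map_mul, QuadraticAlgebra.re_mul, mul_assoc,
                mul_zero_of_mem hI (him x) (him y), mul_zero, add_zero]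
            map_zero' := by rw [map_zero, map_zero]; rfl
            map_add' := by
              intro x y
              rw [map_add, map_add]
              rfl
            commutes' := by
              intro c
              rw [AlgHom.commutes, AlgHom.commutes]
              rfl }, AlgHom.ext fun x => hre x⟩

end step

end Pool.Agent.SSF.Geo
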