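import Pool.Agent.SSF.XHyp
import Pool.Agent.SSF.Geo.QStep

/-!
# SSF, geometry: the degree zero part of a `Lam`-graded formally smooth algebra with units in every
degree is formally smooth
-/

set_option autoImplicit false

namespace Pool.Agent.SSF.Geo

open Algebra DirectSum Pool.Agent.SSF

section sub

variable {k C Γ : Type} [CommRing k] [CommRing C] [Algebra k C] [AddCommGroup Γ] [DecidableEq Γ]
  (𝒞 : Γ → Submodule k C) [GradedAlgebra 𝒞] (H : AddSubgroup Γ)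

/-- The subalgebra of the elements with degrees in `H`. -/
def subH : Subalgebra k C where
  carrier := {x | ∀ γ, γ ∉ H → (decompose 𝒞 x γ : C) = 0}
  mul_mem' := by
    intro x y hx hy γ hγ
    classical
    rw [decompose_mul, mul_eq_dfinsuppSum, DFinsupp.sum, DFinsupp.finsetSum_apply]
    rw [AddSubmonoidClass.coe_finsetSum]
    refine Finset.sum_eq_zero fun i _ => ?_
    rw [DFinsupp.sum, DFinsupp.finsetSum_apply, AddSubmonoidClass.coe_finsetSum]
    refine Finset.sum_eq_zero fun j _ => ?_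
    by_cases hij : i + j = γ
    · have : i ∉ H ∨ j ∉ H := by
        by_contra hc
        push Not at hc
        exact hγ (hij ▸ H.add_mem hc.1 hc.2)
      subst hij
      rw [of_eq_same]
      change (decompose 𝒞 x i : C) * (decompose 𝒞 y j : C) = 0
      rcases this with h1 | h1
      · rw [hx i h1, zero_mul]
      · rw [hy j h1, mul_zero]
    · rw [of_eq_of_ne _ _ _ (Ne.symm hij)]
      rfl
  add_mem' := by
    intro x y hx hy γ hγ
    rw [decompose_add, DirectSum.add_apply, Submodule.coe_add, hx γ hγ, hy γ hγ, add_zero]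
  algebraMap_mem' := by
    intro c γ hγ
    have h1 : algebraMap k C c ∈ 𝒞 0 := SetLike.algebraMap_mem_graded 𝒞 c
    rw [decompose_of_mem 𝒞 h1, of_eq_of_ne]
    · rfl
    · rintro rfl
      exact hγ H.zero_mem

theorem mem_subH_of_mem {γ : Γ} (hγ : γ ∈ H) {x : C} (hx : x ∈ 𝒞 γ) : x ∈ subH 𝒞 H := by
  intro δ hδ
  rw [decompose_of_mem 𝒞 hx, of_eq_of_ne]
  · rfl
  · rintro rfl
    exact hδ hγ

open Classical in
/-- The projection onto the part with degrees in `H`. -/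
noncomputable def projH : C →ₗ[k] C :=
  (toModule k Γ C fun γ => if γ ∈ H then (𝒞 γ).subtype else 0).comp
    (decomposeLinearEquiv 𝒞).toLinearMap

theorem projH_of_mem {γ : Γ} (hγ : γ ∈ H) {x : C} (hx : x ∈ 𝒞 γ) : projH 𝒞 H x = x := by
  unfold projH
  simp only [LinearMap.comp_apply, LinearEquiv.coe_coe, decomposeLinearEquiv_apply]
  rw [decompose_of_mem 𝒞 hx]
  erw [toModule_lof]
  rw [if_pos hγ]
  rfl

theorem projH_of_not_mem {γ : Γ} (hγ : γ ∉ H) {x : C} (hx : x ∈ 𝒞 γ) : projH 𝒞 H x = 0 := by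
  unfold projH
  simp only [LinearMap.comp_apply, LinearEquiv.coe_coe, decomposeLinearEquiv_apply]
  rw [decompose_of_mem 𝒞 hx]
  erw [toModule_lof]
  rw [if_neg hγ]
  rfl

/-- Induction over elements with degrees in `H`. -/
theorem subH_induction {P : C → Prop} (h0 : P 0) (hadd : ∀ x y, P x → P y → P (x + y))
    (hom : ∀ γ ∈ H, ∀ x ∈ 𝒞 γ, P x) {c : C} (hc : c ∈ subH 𝒞 H) : P c := by
  classical
  rw [← sum_support_decompose 𝒞 c]
  refine Finset.sum_induction _ P hadd h0 fun γ _ => ?_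
  by_cases hγ : γ ∈ H
  · exact hom γ hγ _ (decompose 𝒞 c γ).2
  · rw [hc γ hγ]
    exact h0

theorem hom_induction {P : C → Prop} (h0 : P 0) (hadd : ∀ x y, P x → P y → P (x + y))
    (hom : ∀ γ, ∀ x ∈ 𝒞 γ, P x) (c : C) : P c := by
  classical
  rw [← sum_support_decompose 𝒞 c]
  exact Finset.sum_induction _ P hadd h0 fun γ _ => hom γ _ (decompose 𝒞 c γ).2

theorem projH_mem (x : C) : projH 𝒞 H x ∈ subH 𝒞 H := by
  refine hom_induction 𝒞 (P := fun x => projH 𝒞 H x ∈ subH 𝒞 H) ?_ ?_ ?_ x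
  · rw [map_zero]
    exact zero_mem _
  · intro x y hx hy
    rw [map_add]
    exact add_mem hx hy
  · intro γ x hx
    by_cases hγ : γ ∈ H
    · rw [projH_of_mem 𝒞 H hγ hx]
      exact mem_subH_of_mem 𝒞 H hγ hx
    · rw [projH_of_not_mem 𝒞 H hγ hx]
      exact zero_mem _

theorem projH_eq {x : C} (hx : x ∈ subH 𝒞 H) : projH 𝒞 H x = x := by
  refine subH_induction 𝒞 H (P := fun x => projH 𝒞 H x = x) (map_zero _) ?_ ?_ hx
  · intro x y h1 h2
    rw [map_add, h1, h2]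
  · intro γ hγ x hx
    exact projH_of_mem 𝒞 H hγ hx

theorem projH_mul {b : C} (hb : b ∈ subH 𝒞 H) (x : C) :
    projH 𝒞 H (b * x) = b * projH 𝒞 H x := by
  refine subH_induction 𝒞 H (P := fun b => projH 𝒞 H (b * x) = b * projH 𝒞 H x) ?_ ?_ ?_ hb
  · rw [zero_mul, zero_mul, map_zero]
  · intro b b' h1 h2
    rw [add_mul, map_add, h1, h2, add_mul]
  · intro γ hγ b hb
    refine hom_induction 𝒞 (P := fun x => projH 𝒞 H (b * x) = b * projH 𝒞 H x) ?_ ?_ ?_ x
    · rw [mul_zero, map_zero, mul_zero]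
    · intro x y h1 h2
      rw [mul_add, map_add, h1, h2, map_add, mul_add]
    · intro δ x hx
      have h1 : b * x ∈ 𝒞 (γ + δ) := SetLike.mul_mem_graded hb hx
      by_cases hδ : δ ∈ H
      · rw [projH_of_mem 𝒞 H hδ hx, projH_of_mem 𝒞 H (H.add_mem hγ hδ) h1]
      · rw [projH_of_not_mem 𝒞 H hδ hx, projH_of_not_mem 𝒞 H ?_ h1, mul_zero]
        intro h2
        exact hδ ((H.add_mem_cancel_left hγ).1 h2)

end sub

section step

variable {k C Γ : Type} [CommRing k] [CommRing C] [Algebra k C] [AddCommGroup Γ] [DecidableEq Γ]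
  (𝒞 : Γ → Submodule k C) [GradedAlgebra 𝒞]

/-- The step from `H` to a subgroup of index two. -/
theorem formallySmooth_step (H H' : AddSubgroup Γ) (hle : H' ≤ H) (γ : Γ) (hγ : γ ∈ H)
    (hγ' : γ ∉ H') (h2 : γ + γ ∈ H') (hc : ∀ δ ∈ H, δ ∈ H' ∨ δ - γ ∈ H')
    {w w' : C} (hw : w ∈ 𝒞 γ) (hw' : w' ∈ 𝒞 (-γ)) (hww : w * w' = 1)
    [FormallySmooth k (subH 𝒞 H)] : FormallySmooth k (subH 𝒞 H') := by
  have hsub : subH 𝒞 H' ≤ subH 𝒞 H := fun x hx δ hδ => hx δ fun h => hδ (hle h)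
  have hwH : w ∈ subH 𝒞 H := mem_subH_of_mem 𝒞 H hγ hw
  have hb : w * w ∈ subH 𝒞 H' := mem_subH_of_mem 𝒞 H' h2 (SetLike.mul_mem_graded hw hw)
  refine formallySmooth_of_quad (C := subH 𝒞 H) (Subalgebra.inclusion hsub) ⟨w, hwH⟩
    ⟨w * w, hb⟩ rfl (fun c => ⟨projH 𝒞 H' c, projH_mem 𝒞 H' _⟩)
    (fun c => ⟨projH 𝒞 H' (c * w'), projH_mem 𝒞 H' _⟩) ?_ ?_
  · rintro ⟨c, hc'⟩
    refine Subtype.ext ?_
    change c = projH 𝒞 H' c + projH 𝒞 H' (c * w') * w
    refine subH_induction 𝒞 H (P := fun c => c = projH 𝒞 H' c + projH 𝒞 H' (c * w') * w)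
      ?_ ?_ ?_ hc'
    · rw [zero_mul, map_zero, zero_mul, add_zero]
    · intro x y hx hy
      rw [add_mul, map_add, map_add, add_mul]
      conv_lhs => rw [hx, hy]
      abel
    · intro δ hδ x hx
      have h3 : x * w' ∈ 𝒞 (δ - γ) := by
        rw [sub_eq_add_neg]
        exact SetLike.mul_mem_graded hx hw'
      rcases hc δ hδ with h4 | h4
      · rw [projH_of_mem 𝒞 H' h4 hx, projH_of_not_mem 𝒞 H' ?_ h3, zero_mul, add_zero]
        intro h5
        have h6 := H'.sub_mem h4 h5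
        rw [sub_sub_cancel] at h6
        exact hγ' h6
      · rw [projH_of_mem 𝒞 H' h4 h3, projH_of_not_mem 𝒞 H' ?_ hx, zero_add, mul_assoc,
          mul_comm w' w, hww, mul_one]
        intro h5
        have h6 := H'.sub_mem h5 h4
        rw [sub_sub_cancel] at h6
        exact hγ' h6
  · rintro ⟨x, hx⟩ ⟨y, hy⟩ ⟨x', hx'⟩ ⟨y', hy'⟩ h
    have h1 : x + y * w = x' + y' * w := congrArg Subtype.val h
    have h3 : x = x' := by
      have h4 := congrArg (projH 𝒞 H') h1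
      rw [map_add, map_add, projH_mul 𝒞 H' hy, projH_mul 𝒞 H' hy',
        projH_of_not_mem 𝒞 H' hγ' hw, mul_zero, mul_zero, add_zero, add_zero,
        projH_eq 𝒞 H' hx, projH_eq 𝒞 H' hx'] at h4
      exact h4
    have h5 : y = y' := by
      subst h3
      have h6 := congrArg (· * w') (add_left_cancel h1)
      simp only [mul_assoc, hww, mul_one] at h6
      exact h6
    exact ⟨Subtype.ext h3, Subtype.ext h5⟩

end step

section lam

variable {k C : Type} [CommRing k] [CommRing C] [Algebra k C]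
  (𝒞 : Lam → Submodule k C) [GradedAlgebra 𝒞]

/-- The degrees whose first `m` torsion coordinates vanish. -/
def Hm (m : ℕ) : AddSubgroup Lam where
  carrier := {γ | ∀ j : Fin 8, j.val < m → γ.2 j = 0}
  zero_mem' := fun _ _ => rfl
  add_mem' := by
    intro a b ha hb j hj
    rw [Prod.snd_add, Pi.add_apply, ha j hj, hb j hj, add_zero]
  neg_mem' := by
    intro a ha j hj
    rw [Prod.snd_neg, Pi.neg_apply, ha j hj, neg_zero]

theorem fs_chain (hu : ∀ γ, ∃ w ∈ 𝒞 γ, ∃ w' ∈ 𝒞 (-γ), w * w' = 1) [FormallySmooth k C] :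
    ∀ m : ℕ, m ≤ 8 → FormallySmooth k (subH 𝒞 (Hm m)) := by
  intro m
  induction m with
  | zero =>
    intro _
    have h1 : ∀ c : C, c ∈ subH 𝒞 (Hm 0) := fun c γ hγ =>
      absurd (fun j hj => absurd hj (Nat.not_lt_zero _)) hγ
    exact formallySmooth_of_retract (C := C) (subH 𝒞 (Hm 0)).val
      ((AlgHom.id k C).codRestrict _ h1) fun x => Subtype.ext rfl
  | succ m ih =>
    intro hm
    have := ih (by omega)
    let j : Fin 8 := ⟨m, by omega⟩
    let γ : Lam := (0, u j)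
    obtain ⟨w, hw, w', hw', hww⟩ := hu γ
    have hz : ∀ a : ZMod 2, a = 0 ∨ a = 1 := by decide
    refine formallySmooth_step 𝒞 (Hm m) (Hm (m + 1)) (fun δ hδ i hi => hδ i (by omega)) γ ?_ ?_ ?_
      ?_ hw hw' hww
    · intro i hi
      change (Pi.single j 1 : Fin 8 → ZMod 2) i = 0
      refine Pi.single_eq_of_ne ?_ _
      rintro rfl
      exact absurd hi (lt_irrefl _)
    · intro h
      have h1 : (Pi.single j 1 : Fin 8 → ZMod 2) j = 0 := h j (Nat.lt_succ_self m)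
      rw [Pi.single_eq_same] at h1
      exact absurd h1 (by decide)
    · intro i _
      change (u j + u j : Fin 8 → ZMod 2) i = 0
      exact CharTwo.add_self_eq_zero _
    · intro δ hδ
      rcases hz (δ.2 j) with h0 | h0
      · left
        intro i hi
        rcases Nat.lt_succ_iff_lt_or_eq.1 hi with h1 | h1
        · exact hδ i h1
        · have h2 : i = j := Fin.ext h1
          rw [h2, h0]
      · right
        intro i hi
        change δ.2 i - (Pi.single j 1 : Fin 8 → ZMod 2) i = 0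
        rcases Nat.lt_succ_iff_lt_or_eq.1 hi with h1 | h1
        · rw [hδ i h1, Pi.single_eq_of_ne, sub_zero]
          rintro rfl
          exact absurd h1 (lt_irrefl _)
        · have h2 : i = j := Fin.ext h1
          rw [h2, h0, Pi.single_eq_same, sub_self]

theorem mem_H8 {γ : Lam} : γ ∈ Hm 8 ↔ γ.2 = 0 :=
  ⟨fun h => funext fun j => h j j.2, fun h j _ => by rw [h]; rfl⟩

/-- The twist homomorphism `c ↦ c * X^(-deg c)`. -/
theorem exists_twist (χ : Lam → C) (h0 : χ 0 = 1) (hadd : ∀ γ δ, χ (γ + δ) = χ γ * χ δ) :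
    ∃ f : C →ₐ[k] C, ∀ γ, ∀ c ∈ 𝒞 γ, f c = c * χ γ := by
  let g : ∀ γ, 𝒞 γ →ₗ[k] C := fun γ => (LinearMap.mulRight k (χ γ)).comp (𝒞 γ).subtype
  have hg : ∀ γ (x : 𝒞 γ), g γ x = (x : C) * χ γ := fun _ _ => rfl
  let F : (⨁ γ, 𝒞 γ) →ₐ[k] C := DirectSum.toAlgebra k (fun γ => 𝒞 γ) g
    (by
      rw [hg, h0, mul_one]
      rfl)
    (by
      intro γ δ x y
      rw [hg, hg, hg, hadd]
      change ((x : C) * (y : C)) * _ = _
      ring)
  refine ⟨F.comp (decomposeAlgEquiv 𝒞).toAlgHom, fun γ c hc => ?_⟩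
  change F (decompose 𝒞 c) = _
  rw [decompose_of_mem 𝒞 hc]
  exact (DirectSum.toAddMonoid_of (fun γ => (g γ).toAddMonoidHom) γ (⟨c, hc⟩ : 𝒞 γ)).trans
    (hg γ ⟨c, hc⟩)

theorem zpow_mem {x : Cˣ} {γ : Lam} (h : (x : C) ∈ 𝒞 γ) (h' : ((x⁻¹ : Cˣ) : C) ∈ 𝒞 (-γ)) (n : ℤ) :
    ((x ^ n : Cˣ) : C) ∈ 𝒞 (n • γ) := by
  cases n with
  | ofNat n =>
    rw [Int.ofNat_eq_natCast, zpow_natCast, natCast_zsmul, Units.val_pow_eq_pow_val]
    exact SetLike.pow_mem_graded n h
  | negSucc n =>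
    rw [zpow_negSucc, negSucc_zsmul, ← inv_pow, Units.val_pow_eq_pow_val, ← smul_neg]
    exact SetLike.pow_mem_graded (n + 1) h'

/-- The degree zero part is formally smooth. -/
theorem formallySmooth_zero {B : Type} [CommRing B] [Algebra k B]
    (hu : ∀ γ, ∃ w ∈ 𝒞 γ, ∃ w' ∈ 𝒞 (-γ), w * w' = 1) (i : B →ₐ[k] C)
    (hi : Function.Injective i) (hr : ∀ c, c ∈ 𝒞 0 ↔ c ∈ Set.range i) [FormallySmooth k C] :
    FormallySmooth k B := by
  have := fs_chain 𝒞 hu 8 le_rfl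
  choose w hw w' hw' hww using hu
  let x : Fin 4 → Cˣ := fun j => ⟨w (Pi.single j 1, 0), w' (Pi.single j 1, 0), hww _,
    (mul_comm _ _).trans (hww _)⟩
  let χu : Lam → Cˣ := fun γ => ∏ j, x j ^ (-(γ.1 j))
  have hχ0 : χu 0 = 1 := by
    refine Finset.prod_eq_one fun j _ => ?_
    simp
  have hχa : ∀ γ δ, χu (γ + δ) = χu γ * χu δ := by
    intro γ δ
    rw [← Finset.prod_mul_distrib]
    refine Finset.prod_congr rfl fun j _ => ?_
    rw [← zpow_add, Prod.fst_add, Pi.add_apply, neg_add]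
  obtain ⟨f, hf⟩ := exists_twist 𝒞 (fun γ => (χu γ : C)) (by rw [hχ0]; rfl)
    (fun γ δ => by rw [hχa]; rfl)
  have hχm : ∀ γ : Lam, γ.2 = 0 → (χu γ : C) ∈ 𝒞 (-γ) := by
    intro γ hγ
    have h1 : ((∏ j, x j ^ (-(γ.1 j)) : Cˣ) : C) = ∏ j, ((x j ^ (-(γ.1 j)) : Cˣ) : C) :=
      Units.coe_prod _ _
    have h2 : -γ = ∑ j : Fin 4, (-(γ.1 j)) • ((Pi.single j 1, 0) : Lam) := by
      refine Prod.ext ?_ ?_
      · rw [Prod.fst_sum]
        funext l
        rw [Finset.sum_apply]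
        simp [Pi.single_apply]
      · rw [Prod.snd_sum]
        simp [hγ]
    change ((∏ j, x j ^ (-(γ.1 j)) : Cˣ) : C) ∈ _
    rw [h1, h2]
    exact SetLike.prod_mem_graded 𝒞 _ _ fun j _ => zpow_mem 𝒞 (hw _) (hw' _) _
  have h8 : ∀ c : subH 𝒞 (Hm 8), f c ∈ i.range := by
    rintro ⟨c, hc⟩
    refine (hr _).1 ?_
    refine subH_induction 𝒞 (Hm 8) (P := fun c => f c ∈ 𝒞 0) ?_ ?_ ?_ hc
    · rw [map_zero]
      exact zero_mem _
    · intro a b ha hb
      rw [map_add]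
      exact add_mem ha hb
    · intro γ hγ a ha
      rw [hf γ a ha, ← add_neg_cancel γ]
      exact SetLike.mul_mem_graded ha (hχm γ (mem_H8.1 hγ))
  have hi0 : ∀ b, i b ∈ 𝒞 0 := fun b => (hr _).2 ⟨b, rfl⟩
  refine formallySmooth_of_retract (C := subH 𝒞 (Hm 8))
    (i.codRestrict (subH 𝒞 (Hm 8)) fun b => mem_subH_of_mem 𝒞 (Hm 8) (Hm 8).zero_mem (hi0 b))
    ((AlgEquiv.ofInjective i hi).symm.toAlgHom.comp
      ((f.comp (subH 𝒞 (Hm 8)).val).codRestrict i.range h8)) fun b => ?_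
  change (AlgEquiv.ofInjective i hi).symm ⟨f (i b), _⟩ = b
  rw [AlgEquiv.symm_apply_eq]
  refine Subtype.ext ?_
  change f (i b) = i b
  rw [hf 0 _ (hi0 b), hχ0, Units.val_one, mul_one]

end lam

end Pool.Agent.SSF.Geo
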