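import Pool.Agent.SSF.Br.PI

/-!
# SSF, geometry: smoothness of `Proj A` from charts, descent of smoothness
-/

namespace Pool.Agent.SSF.Geo

open CategoryTheory AlgebraicGeometry MonoidalCategory CartesianMonoidalCategory Limits
open TensorProduct HomogeneousLocalization HomogeneousIdeal Graded
open Pool.Agent.SSF.Br

variable {k A : Type} [Field k] [CommRing A] [Algebra k A] (𝒜 : ℕ → Submodule k A)
  [GradedAlgebra 𝒜]

/-- The affine open cover of `Proj A` by the charts of a family `f`. -/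
noncomputable def coverOf {ι : Type} (f : ι → A) {m : ι → ℕ} (f_deg : ∀ i, f i ∈ 𝒜 (m i))
    (hm : ∀ i, 0 < m i) (h : ∀ P : ProjectiveSpectrum 𝒜, ∃ i, f i ∉ P.asHomogeneousIdeal) :
    (Proj 𝒜).AffineOpenCover where
  I₀ := ι
  X i := .of (Away 𝒜 (f i))
  f i := Proj.awayι 𝒜 (f i) (f_deg i) (hm i)
  idx x := (h x).choose
  covers x := by
    change x ∈ (Proj.awayι 𝒜 _ _ _).opensRange
    rw [Proj.opensRange_awayι]
    exact (h x).choose_spec

/-- The structure map `k → (A_f)₀`. -/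
noncomputable def awayStr (f : A) : k →+* Away 𝒜 f :=
  (fromZeroRingHom 𝒜 _).comp (algebraMap k (𝒜 0))

lemma awayι_projOver {f : A} {m : ℕ} (hf : f ∈ 𝒜 m) (hm : 0 < m) :
    Proj.awayι 𝒜 f hf hm ≫ (projOver 𝒜).hom =
      Spec.map (CommRingCat.ofHom (awayStr 𝒜 f)) := by
  show Proj.awayι 𝒜 f hf hm ≫ Proj.toSpecZero 𝒜 ≫
    Spec.map (CommRingCat.ofHom (algebraMap k (𝒜 0))) = _
  rw [Proj.awayι_toSpecZero_assoc, ← Spec.map_comp, ← CommRingCat.ofHom_comp]
  rfl

/-- Smoothness of `Proj A` over `k` from smooth charts. -/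
theorem smooth_of_charts {ι : Type} (f : ι → A) {m : ι → ℕ} (f_deg : ∀ i, f i ∈ 𝒜 (m i))
    (hm : ∀ i, 0 < m i) (h : ∀ P : ProjectiveSpectrum 𝒜, ∃ i, f i ∉ P.asHomogeneousIdeal)
    (hs : ∀ i, (awayStr 𝒜 (f i)).Smooth) : Smooth (projOver 𝒜).hom := by
  have hloc : IsZariskiLocalAtSource (@Smooth.{0}) :=
    HasRingHomProperty.instIsZariskiLocalAtSource (Q := RingHom.Smooth)
  refine (IsZariskiLocalAtSource.iff_of_openCover (P := @Smooth)
    (coverOf 𝒜 f f_deg hm h).openCover).2 fun i => ?_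
  change Smooth (Proj.awayι 𝒜 (f i) (f_deg i) (hm i) ≫ (projOver 𝒜).hom)
  rw [awayι_projOver]
  exact (HasRingHomProperty.Spec_iff (P := @Smooth)).2 (hs i)

lemma smooth_snd (k' : Type) [Field k'] [Algebra k k']
    (h : Smooth (projTo 𝒜 k')) : Smooth (snd (projOver 𝒜) (specOver k k')).left := by
  obtain ⟨e, he1, he2, he3⟩ := exists_projIso 𝒜
  have h1 : (snd (projOver 𝒜) (specOver k k')).left = (e k').inv ≫ projTo 𝒜 k' :=
    (Iso.eq_inv_comp (e k')).2 (he2 k')
  have h2 : Smooth ((e k').inv ≫ projTo 𝒜 k') := inferInstance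
  rw [h1]
  exact h2

/-- Descent of smoothness along an extension of the base field. -/
theorem smooth_descent (k' : Type) [Field k'] [Algebra k k']
    (h : Smooth (projTo 𝒜 k')) : Smooth (projOver 𝒜).hom := by
  have h1 := smooth_snd 𝒜 k' h
  have h2 : (snd (projOver 𝒜) (specOver k k')).left =
      pullback.snd (projOver 𝒜).hom (specOver k k').hom := Over.snd_left
  rw [h2] at h1
  have h3 : (@Surjective ⊓ @Flat ⊓ @QuasiCompact : MorphismProperty Scheme.{0})
      (specOver k k').hom := by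
    refine ⟨⟨?_, ?_⟩, ?_⟩
    · show Surjective (Spec.map (CommRingCat.ofHom (algebraMap k k')))
      infer_instance
    · show Flat (Spec.map (CommRingCat.ofHom (algebraMap k k')))
      infer_instance
    · show QuasiCompact (Spec.map (CommRingCat.ofHom (algebraMap k k')))
      infer_instance
  exact MorphismProperty.of_pullback_snd_of_descendsAlong (P := @Smooth)
    (Q := @Surjective ⊓ @Flat ⊓ @QuasiCompact) h3 h1

end Pool.Agent.SSF.Geo
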